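import Pool.Agent.H548.SC.Defs

/-!
# SC-IN (`StmtIn`), helper52
-/

set_option autoImplicit false
open Classical Finset

namespace Pool.Agent.R52.SC

open Pool.Agent.H548.SC

variable {ι κ : Type} [Fintype ι] [Fintype κ]

omit [Fintype ι] [Fintype κ] in
theorem wt_nonneg {t : ι × κ → ℝ} (ht : ∀ x, 0 ≤ t x) (S : Finset (ι × κ)) : 0 ≤ wt t S :=
  Finset.prod_nonneg fun x _ => ht x

/-- the pairs (row set, column set). -/
noncomputable def PP (ι κ : Type) [Fintype ι] [Fintype κ] :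
    Finset (Finset (ι × κ) × Finset (ι × κ)) :=
  univ.filter (fun p => (isRow p.1 ∧ 2 ≤ p.1.card) ∧
    (isCol p.2 ∧ 2 ≤ p.2.card ∧ 5 ≤ p.1.card + p.2.card))

theorem sum_PP (f : Finset (ι × κ) → Finset (ι × κ) → ℝ) :
    (∑ A ∈ (univ : Finset (Finset (ι × κ))) with isRow A ∧ 2 ≤ A.card,
      ∑ B ∈ (univ : Finset (Finset (ι × κ))) with isCol B ∧ 2 ≤ B.card ∧ 5 ≤ A.card + B.card,
        f A B) = ∑ p ∈ PP ι κ, f p.1 p.2 := by
  rw [PP, Finset.sum_filter, Finset.sum_filter, Fintype.sum_prod_type]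
  refine Finset.sum_congr rfl fun A _ => ?_
  split_ifs with h
  · rw [Finset.sum_filter]
    refine Finset.sum_congr rfl fun B _ => ?_
    by_cases h2 : isCol B ∧ 2 ≤ B.card ∧ 5 ≤ A.card + B.card
    · rw [if_pos h2, if_pos ⟨h, h2⟩]
    · rw [if_neg h2, if_neg fun h3 => h2 h3.2]
  · symm
    apply Finset.sum_eq_zero
    intro B _
    rw [if_neg fun h3 => h h3.1]

/-- the disjoint part. -/
theorem part_one (t : ι × κ → ℝ) :
    (∑ W ∈ (univ : Finset (Finset (ι × κ))) with 5 ≤ W.card, (sg W : ℝ) * wt t W) =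
      ∑ p ∈ (PP ι κ).filter (fun p => Disjoint p.1 p.2), wt t p.1 * wt t p.2 := by
  have key := Finset.sum_fiberwise_of_maps_to
    (s := (PP ι κ).filter (fun p => Disjoint p.1 p.2))
    (t := (univ : Finset (Finset (ι × κ))).filter (fun W => 5 ≤ W.card))
    (g := fun p => p.1 ∪ p.2) (by
      intro p hp
      simp only [PP, Finset.mem_filter, Finset.mem_univ, true_and] at hp ⊢
      rw [Finset.card_union_of_disjoint hp.2]
      exact hp.1.2.2.2) (fun p => wt t p.1 * wt t p.2)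
  rw [← key]
  refine Finset.sum_congr rfl fun W hW => ?_
  have hW5 : 5 ≤ W.card := (Finset.mem_filter.1 hW).2
  have e1 : ((PP ι κ).filter (fun p => Disjoint p.1 p.2)).filter (fun p => p.1 ∪ p.2 = W) =
      ((univ : Finset (Finset (ι × κ) × Finset (ι × κ))).filter (fun p =>
        isRow p.1 ∧ isCol p.2 ∧ 2 ≤ p.1.card ∧ 2 ≤ p.2.card ∧ Disjoint p.1 p.2 ∧
          p.1 ∪ p.2 = W)) := by
    ext p
    simp only [PP, Finset.mem_filter, Finset.mem_univ, true_and]
    constructor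
    · rintro ⟨⟨⟨⟨h1, h2⟩, h3, h4, _⟩, h6⟩, h7⟩
      exact ⟨h1, h3, h2, h4, h6, h7⟩
    · rintro ⟨h1, h2, h3, h4, h5, h6⟩
      refine ⟨⟨⟨⟨h1, h3⟩, h2, h4, ?_⟩, h5⟩, h6⟩
      rw [← Finset.card_union_of_disjoint h5, h6]
      exact hW5
  rw [e1, sg, ← nsmul_eq_mul, ← Finset.sum_const]
  refine Finset.sum_congr rfl fun p hp => ?_
  simp only [Finset.mem_filter, Finset.mem_univ, true_and] at hp
  obtain ⟨_, _, _, _, h5, h6⟩ := hp
  rw [← h6, wt, Finset.prod_union h5, wt, wt]

/-- pairs `(S,x)` with a cell of `S` in general position to `x`. -/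
theorem part_two (t : ι × κ → ℝ) (ht : ∀ x, 0 ≤ t x) :
    (∑ S ∈ N4 ι κ, ∑ x ∈ S, if ∃ y ∈ S, gen x y then t x * wt t S else 0) ≤
    (∑ S ∈ (univ : Finset (Finset (ι × κ))) with 3 ≤ S.card,
      ∑ x ∈ S, ∑ y ∈ Sᶜ, if gen x y then t x * t y * wt t S else 0) := by
  have s1 : (∑ S ∈ N4 ι κ, ∑ x ∈ S, if ∃ y ∈ S, gen x y then t x * wt t S else 0) ≤
      ∑ S ∈ N4 ι κ, ∑ x ∈ S, ∑ y ∈ S, if gen x y then t x * wt t S else 0 := by
    refine Finset.sum_le_sum fun S _ => Finset.sum_le_sum fun x _ => ?_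
    have hnn : ∀ y ∈ S, 0 ≤ (if gen x y then t x * wt t S else 0) := by
      intro y _
      split_ifs
      · exact mul_nonneg (ht x) (wt_nonneg ht S)
      · exact le_rfl
    split_ifs with h
    · obtain ⟨y, hy, hg⟩ := h
      have := Finset.single_le_sum hnn hy
      rwa [if_pos hg] at this
    · exact Finset.sum_nonneg hnn
  refine s1.trans ?_
  let T1 : Finset (Finset (ι × κ) × (ι × κ) × (ι × κ)) :=
    univ.filter (fun q => q.1 ∈ N4 ι κ ∧ q.2.1 ∈ q.1 ∧ q.2.2 ∈ q.1 ∧ gen q.2.1 q.2.2)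
  let T2 : Finset (Finset (ι × κ) × (ι × κ) × (ι × κ)) :=
    univ.filter (fun q => 3 ≤ q.1.card ∧ q.2.1 ∈ q.1 ∧ q.2.2 ∈ q.1ᶜ ∧ gen q.2.1 q.2.2)
  have e1 : (∑ S ∈ N4 ι κ, ∑ x ∈ S, ∑ y ∈ S, if gen x y then t x * wt t S else 0) =
      ∑ q ∈ T1, t q.2.1 * wt t q.1 := by
    simp only [T1]
    rw [Finset.sum_filter, Fintype.sum_prod_type]
    rw [← Finset.sum_subset (Finset.subset_univ (N4 ι κ))]
    · refine Finset.sum_congr rfl fun S hS => ?_
      rw [Fintype.sum_prod_type, ← Finset.sum_subset (Finset.subset_univ S)]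
      · refine Finset.sum_congr rfl fun x hx => ?_
        rw [← Finset.sum_subset (Finset.subset_univ S)]
        · refine Finset.sum_congr rfl fun y hy => ?_
          by_cases hg : gen x y
          · rw [if_pos hg, if_pos ⟨hS, hx, hy, hg⟩]
          · rw [if_neg hg, if_neg fun h => hg h.2.2.2]
        · intro y _ hy
          rw [if_neg fun h => hy h.2.2.1]
      · intro x _ hx
        apply Finset.sum_eq_zero
        intro y _
        rw [if_neg fun h => hx h.2.1]
    · intro S _ hS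
      apply Finset.sum_eq_zero
      intro y _
      rw [if_neg fun h => hS h.1]
  have e2 : (∑ S ∈ (univ : Finset (Finset (ι × κ))) with 3 ≤ S.card,
      ∑ x ∈ S, ∑ y ∈ Sᶜ, if gen x y then t x * t y * wt t S else 0) =
      ∑ q ∈ T2, t q.2.1 * t q.2.2 * wt t q.1 := by
    simp only [T2]
    rw [Finset.sum_filter, Finset.sum_filter, Fintype.sum_prod_type]
    refine Finset.sum_congr rfl fun S _ => ?_
    split_ifs with hS
    · rw [Fintype.sum_prod_type, ← Finset.sum_subset (Finset.subset_univ S)]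
      · refine Finset.sum_congr rfl fun x hx => ?_
        rw [← Finset.sum_subset (Finset.subset_univ Sᶜ)]
        · refine Finset.sum_congr rfl fun y hy => ?_
          by_cases hg : gen x y
          · rw [if_pos hg, if_pos ⟨hS, hx, hy, hg⟩]
          · rw [if_neg hg, if_neg fun h => hg h.2.2.2]
        · intro y _ hy
          rw [if_neg fun h => hy h.2.2.1]
      · intro x _ hx
        apply Finset.sum_eq_zero
        intro y _
        rw [if_neg fun h => hx h.2.1]
    · symm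
      apply Finset.sum_eq_zero
      intro y _
      rw [if_neg fun h => hS h.1]
  rw [e1, e2]
  let φ : Finset (ι × κ) × (ι × κ) × (ι × κ) → Finset (ι × κ) × (ι × κ) × (ι × κ) :=
    fun q => (q.1.erase q.2.2, q.2)
  have hinj : Set.InjOn φ (T1 : Set (Finset (ι × κ) × (ι × κ) × (ι × κ))) := by
    rintro ⟨S, x, y⟩ hq ⟨S', x', y'⟩ hq' h
    simp only [φ, Prod.mk.injEq] at h
    obtain ⟨h1, h2, h3⟩ := h
    have hy : y ∈ S := (Finset.mem_filter.1 (Finset.mem_coe.1 hq)).2.2.2.1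
    have hy' : y' ∈ S' := (Finset.mem_filter.1 (Finset.mem_coe.1 hq')).2.2.2.1
    subst h2; subst h3
    have : S = S' := by
      rw [← Finset.insert_erase hy, h1, Finset.insert_erase hy']
    rw [this]
  have e3 : ∑ q ∈ T1, t q.2.1 * wt t q.1 = ∑ q ∈ T1.image φ, t q.2.1 * t q.2.2 * wt t q.1 := by
    rw [Finset.sum_image hinj]
    refine Finset.sum_congr rfl fun q hq => ?_
    have hy : q.2.2 ∈ q.1 := (Finset.mem_filter.1 hq).2.2.2.1
    simp only [φ]
    rw [wt, wt, mul_assoc, Finset.mul_prod_erase _ _ hy]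
  rw [e3]
  apply Finset.sum_le_sum_of_subset_of_nonneg
  · intro q hq
    obtain ⟨r, hr, rfl⟩ := Finset.mem_image.1 hq
    obtain ⟨_, h1, h2, h3, h4⟩ := Finset.mem_filter.1 hr
    have h5 : 4 ≤ r.1.card := (Finset.mem_filter.1 h1).2.1
    simp only [T2, φ, Finset.mem_filter, Finset.mem_univ, true_and]
    refine ⟨?_, ?_, ?_, h4⟩
    · rw [Finset.card_erase_of_mem h3]; omega
    · refine Finset.mem_erase.2 ⟨?_, h2⟩
      intro h
      exact h4.1 (by rw [h])
    · simp
  · intro q _ _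
    exact mul_nonneg (mul_nonneg (ht _) (ht _)) (wt_nonneg ht _)

/-- pairs `(S,x)` with `S` in the cross of `x`. -/
theorem part_three (t : ι × κ → ℝ) (ht : ∀ x, 0 ≤ t x) :
    (∑ S ∈ N4 ι κ, ∑ x ∈ S, if ∃ y ∈ S, gen x y then 0 else t x * wt t S) ≤
      ∑ p ∈ (PP ι κ).filter (fun p => ¬ Disjoint p.1 p.2), wt t p.1 * wt t p.2 := by
  let T1 : Finset (Finset (ι × κ) × (ι × κ)) :=
    univ.filter (fun q => q.1 ∈ N4 ι κ ∧ q.2 ∈ q.1 ∧ ¬ ∃ y ∈ q.1, gen q.2 y)
  have e1 : (∑ S ∈ N4 ι κ, ∑ x ∈ S, if ∃ y ∈ S, gen x y then 0 else t x * wt t S) =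
      ∑ q ∈ T1, t q.2 * wt t q.1 := by
    simp only [T1]
    rw [Finset.sum_filter, Fintype.sum_prod_type]
    rw [← Finset.sum_subset (Finset.subset_univ (N4 ι κ))]
    · refine Finset.sum_congr rfl fun S hS => ?_
      rw [← Finset.sum_subset (Finset.subset_univ S)]
      · refine Finset.sum_congr rfl fun x hx => ?_
        by_cases hg : ∃ y ∈ S, gen x y
        · rw [if_pos hg, if_neg fun h => h.2.2 hg]
        · rw [if_neg hg, if_pos ⟨hS, hx, hg⟩]
      · intro x _ hx
        rw [if_neg fun h => hx h.2.1]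
    · intro S _ hS
      apply Finset.sum_eq_zero
      intro y _
      rw [if_neg fun h => hS h.1]
  rw [e1]
  let φ : Finset (ι × κ) × (ι × κ) → Finset (ι × κ) × Finset (ι × κ) :=
    fun q => (q.1.filter (fun z => z.1 = q.2.1), q.1.filter (fun z => z.2 = q.2.2))
  have hun : ∀ q ∈ T1, (φ q).1 ∪ (φ q).2 = q.1 := by
    intro q hq
    obtain ⟨_, _, _, h3⟩ := Finset.mem_filter.1 hq
    simp only [φ]
    rw [← Finset.filter_or]
    apply Finset.filter_true_of_mem
    intro z hz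
    by_contra hc
    push Not at hc
    exact h3 ⟨z, hz, fun h => hc.1 h.symm, fun h => hc.2 h.symm⟩
  have hin : ∀ q ∈ T1, (φ q).1 ∩ (φ q).2 = {q.2} := by
    intro q hq
    obtain ⟨_, _, h2, h3⟩ := Finset.mem_filter.1 hq
    simp only [φ]
    rw [← Finset.filter_and]
    ext z
    rw [Finset.mem_filter, Finset.mem_singleton]
    constructor
    · rintro ⟨_, h4, h5⟩
      exact Prod.ext h4 h5
    · rintro rfl
      exact ⟨h2, rfl, rfl⟩
  have hinj : Set.InjOn φ (T1 : Set (Finset (ι × κ) × (ι × κ))) := by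
    intro q hq q' hq' h
    have h1 := hun q (Finset.mem_coe.1 hq)
    have h2 := hun q' (Finset.mem_coe.1 hq')
    have h3 := hin q (Finset.mem_coe.1 hq)
    have h4 := hin q' (Finset.mem_coe.1 hq')
    rw [h] at h1 h3
    have h5 : q.1 = q'.1 := h1.symm.trans h2
    have h6 : ({q.2} : Finset (ι × κ)) = {q'.2} := h3.symm.trans h4
    exact Prod.ext h5 (Finset.singleton_injective h6)
  have e3 : ∑ q ∈ T1, t q.2 * wt t q.1 = ∑ p ∈ T1.image φ, wt t p.1 * wt t p.2 := by
    rw [Finset.sum_image hinj]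
    refine Finset.sum_congr rfl fun q hq => ?_
    have h1 := Finset.prod_union_inter (s₁ := (φ q).1) (s₂ := (φ q).2) (f := t)
    rw [hun q hq, hin q hq, Finset.prod_singleton] at h1
    rw [wt, wt, wt, ← h1, mul_comm]
  rw [e3]
  apply Finset.sum_le_sum_of_subset_of_nonneg
  · intro p hp
    obtain ⟨q, hq, rfl⟩ := Finset.mem_image.1 hp
    have h1 := hun q hq
    have h2 := hin q hq
    obtain ⟨_, hN, hx, hg⟩ := Finset.mem_filter.1 hq
    obtain ⟨_, h4, hnr, hnc⟩ := Finset.mem_filter.1 hN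
    have hc := Finset.card_union_add_card_inter (φ q).1 (φ q).2
    rw [h1, h2, Finset.card_singleton] at hc
    have hrow : isRow (φ q).1 := by
      refine ⟨⟨q.2, ?_⟩, ?_⟩
      · exact Finset.mem_filter.2 ⟨hx, rfl⟩
      · intro a ha b hb
        exact (Finset.mem_filter.1 ha).2.trans (Finset.mem_filter.1 hb).2.symm
    have hcol : isCol (φ q).2 := by
      refine ⟨⟨q.2, ?_⟩, ?_⟩
      · exact Finset.mem_filter.2 ⟨hx, rfl⟩
      · intro a ha b hb
        exact (Finset.mem_filter.1 ha).2.trans (Finset.mem_filter.1 hb).2.symm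
    have hA : 2 ≤ (φ q).1.card := by
      by_contra hlt
      have hle : (φ q).1.card ≤ 1 := by omega
      have hsub : (φ q).1 ⊆ (φ q).2 := by
        intro z hz
        have hz2 : q.2 ∈ (φ q).1 := Finset.mem_filter.2 ⟨hx, rfl⟩
        have : z = q.2 := Finset.card_le_one.1 hle z hz q.2 hz2
        rw [this]
        exact Finset.mem_filter.2 ⟨hx, rfl⟩
      have : (φ q).2 = q.1 := by rw [← h1, Finset.union_eq_right.2 hsub]
      rw [this] at hcol
      exact hnc hcol
    have hB : 2 ≤ (φ q).2.card := by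
      by_contra hlt
      have hle : (φ q).2.card ≤ 1 := by omega
      have hsub : (φ q).2 ⊆ (φ q).1 := by
        intro z hz
        have hz2 : q.2 ∈ (φ q).2 := Finset.mem_filter.2 ⟨hx, rfl⟩
        have : z = q.2 := Finset.card_le_one.1 hle z hz q.2 hz2
        rw [this]
        exact Finset.mem_filter.2 ⟨hx, rfl⟩
      have : (φ q).1 = q.1 := by rw [← h1, Finset.union_eq_left.2 hsub]
      rw [this] at hrow
      exact hnr hrow
    rw [Finset.mem_filter, PP, Finset.mem_filter]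
    refine ⟨⟨Finset.mem_univ _, ⟨hrow, hA⟩, hcol, hB, by omega⟩, ?_⟩
    rw [Finset.disjoint_iff_inter_eq_empty, h2]
    exact Finset.singleton_ne_empty _
  · intro p _ _
    exact mul_nonneg (wt_nonneg ht _) (wt_nonneg ht _)

theorem stmtIn : StmtIn := by
  intro ι κ _ _ t ht
  rw [sum_PP (fun A B => wt t A * wt t B), part_one,
    ← Finset.sum_filter_add_sum_filter_not (PP ι κ) (fun p => Disjoint p.1 p.2)]
  have e : (∑ S ∈ N4 ι κ, ∑ x ∈ S, t x * wt t S) =
      (∑ S ∈ N4 ι κ, ∑ x ∈ S, if ∃ y ∈ S, gen x y then t x * wt t S else 0) +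
      (∑ S ∈ N4 ι κ, ∑ x ∈ S, if ∃ y ∈ S, gen x y then 0 else t x * wt t S) := by
    rw [← Finset.sum_add_distrib]
    refine Finset.sum_congr rfl fun S _ => ?_
    rw [← Finset.sum_add_distrib]
    refine Finset.sum_congr rfl fun x _ => ?_
    split_ifs <;> simp
  rw [e]
  have h2 := part_two t ht
  have h3 := part_three t ht
  linarith

end Pool.Agent.R52.SC
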